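import Pool.Agent.helper58.PO.LOS
import Pool.Agent.helper38.V3.KO0

/-!
# Project po: the LOSS inequality for a polynomial as a proper map between simply connected domains
-/

set_option autoImplicit false

open Complex Metric Set Filter Topology

noncomputable section

namespace PO

open HY (UD T S RM)

/-- the coordinate of the point `z` with respect to the Riemann map `φ` (the same as `DH.co`). -/
def co (φ : ℂ → ℂ) (z : ℂ) : ℂ := Function.invFunOn φ UD z

theorem co_spec {V : Set ℂ} {a : ℂ} {φ : ℂ → ℂ} (h : RM V a φ) {z : ℂ} (hz : z ∈ V) : co φ z ∈ UD ∧ φ (co φ z) = z := by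
  rw [← h.img] at hz
  exact ⟨Function.invFunOn_mem hz, Function.invFunOn_eq hz⟩

theorem co_phi {V : Set ℂ} {a : ℂ} {φ : ℂ → ℂ} (h : RM V a φ) {x : ℂ} (hx : x ∈ UD) : co φ (φ x) = x := by
  have h1 : φ x ∈ V := by rw [← h.img]; exact mem_image_of_mem _ hx
  exact h.inj (co_spec h h1).1 hx (co_spec h h1).2

theorem UD_open : IsOpen UD := isOpen_ball

theorem zero_UD : (0 : ℂ) ∈ UD := by simp [HY.UD]

theorem RM_der {V : Set ℂ} {a : ℂ} {φ : ℂ → ℂ} (h : RM V a φ) {x : ℂ} (hx : x ∈ UD) : deriv φ x ≠ 0 :=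
  V3.KO0 φ UD UD_open h.dif h.inj x hx

theorem RM_strict {V : Set ℂ} {a : ℂ} {φ : ℂ → ℂ} (h : RM V a φ) {x : ℂ} (hx : x ∈ UD) : HasStrictDerivAt φ (deriv φ x) x :=
  ((h.dif.analyticOnNhd UD_open) x hx).hasStrictDerivAt

theorem RM_nhds {V : Set ℂ} {a : ℂ} {φ : ℂ → ℂ} (h : RM V a φ) {x : ℂ} (hx : x ∈ UD) {N : Set ℂ} (hN : N ∈ 𝓝 x) :
    φ '' N ∈ 𝓝 (φ x) := by
  rw [← (RM_strict h hx).map_nhds_eq (RM_der h hx)]
  exact Filter.image_mem_map hN

theorem RM_mem {V : Set ℂ} {a : ℂ} {φ : ℂ → ℂ} (h : RM V a φ) {x : ℂ} (hx : x ∈ UD) : φ x ∈ V := by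
  rw [← h.img]; exact mem_image_of_mem _ hx

theorem RM_open {V : Set ℂ} {a : ℂ} {φ : ℂ → ℂ} (h : RM V a φ) : IsOpen V := by
  rw [isOpen_iff_mem_nhds]
  intro z hz
  obtain ⟨h1, h2⟩ := co_spec h hz
  have h3 := RM_nhds h h1 (UD_open.mem_nhds h1)
  rw [h2, h.img] at h3
  exact h3

theorem co_der {V : Set ℂ} {a : ℂ} {φ : ℂ → ℂ} (h : RM V a φ) {x : ℂ} (hx : x ∈ UD) :
    HasDerivAt (co φ) (deriv φ x)⁻¹ (φ x) := by
  have hcont : ContinuousAt (co φ) (φ x) := by
    intro N hN
    rw [co_phi h hx] at hN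
    rw [Filter.mem_map]
    filter_upwards [RM_nhds h hx (Filter.inter_mem hN (UD_open.mem_nhds hx))] with y hy
    obtain ⟨z, ⟨hzN, hzU⟩, rfl⟩ := hy
    show co φ (φ z) ∈ N
    rw [co_phi h hzU]
    exact hzN
  have h1 : HasDerivAt φ (deriv φ x) (co φ (φ x)) := by
    rw [co_phi h hx]
    exact (RM_strict h hx).hasDerivAt
  refine HasDerivAt.of_local_left_inverse hcont h1 (RM_der h hx) ?_
  filter_upwards [(RM_open h).mem_nhds (RM_mem h hx)] with y hy
  exact (co_spec h hy).2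

theorem co_dif {V : Set ℂ} {a : ℂ} {φ : ℂ → ℂ} (h : RM V a φ) : DifferentiableOn ℂ (co φ) V := by
  intro z hz
  obtain ⟨h1, h2⟩ := co_spec h hz
  have h3 := co_der h h1
  rw [h2] at h3
  exact h3.differentiableAt.differentiableWithinAt

/-- the polynomial `f` is a proper map of the bounded domain `W` to the domain `W'`. -/
structure PX (f : Polynomial ℂ) (W W' : Set ℂ) (x : ℂ) (φ φ' : ℂ → ℂ) : Prop where
  rm : RM W x φ
  rm' : RM W' (f.eval x) φ'
  map : ∀ z ∈ W, f.eval z ∈ W'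
  fro : ∀ z ∈ frontier W, f.eval z ∉ W'
  bd : Bornology.IsBounded W

/-- `f` in coordinates. -/
def BB (f : Polynomial ℂ) (φ φ' : ℂ → ℂ) (y : ℂ) : ℂ := co φ' (f.eval (φ y))

section
variable {f : Polynomial ℂ} {W W' : Set ℂ} {x : ℂ} {φ φ' : ℂ → ℂ}

theorem BB_spec (h : PX f W W' x φ φ') {y : ℂ} (hy : y ∈ UD) : BB f φ φ' y ∈ UD ∧ φ' (BB f φ φ' y) = f.eval (φ y) :=
  co_spec h.rm' (h.map _ (RM_mem h.rm hy))

theorem BB_der (h : PX f W W' x φ φ') {y : ℂ} (hy : y ∈ UD) :
    HasDerivAt (BB f φ φ') ((deriv φ' (BB f φ φ' y))⁻¹ * (f.derivative.eval (φ y) * deriv φ y)) y := by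
  obtain ⟨h1, h2⟩ := BB_spec h hy
  have h3 := co_der h.rm' h1
  rw [h2] at h3
  have h4 : HasDerivAt (fun y => f.eval (φ y)) (f.derivative.eval (φ y) * deriv φ y) y :=
    (f.hasDerivAt (φ y)).comp y (RM_strict h.rm hy).hasDerivAt
  exact h3.comp y h4

theorem BB_dif (h : PX f W W' x φ φ') : DifferentiableOn ℂ (BB f φ φ') UD :=
  fun _ hy => (BB_der h hy).differentiableAt.differentiableWithinAt

theorem BB_zero (h : PX f W W' x φ φ') : BB f φ φ' 0 = 0 := by
  have h1 : f.eval (φ 0) = φ' 0 := by rw [h.rm.val, h.rm'.val]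
  rw [BB, h1]
  exact co_phi h.rm' zero_UD

theorem BB_proper (h : PX f W W' x φ φ') {r : ℝ} (hr : r < 1) : IsClosed {y | y ∈ UD ∧ ‖BB f φ φ' y‖ ≤ r} := by
  set L : Set ℂ := closure W ∩ (fun z => f.eval z) ⁻¹' (φ' '' closedBall 0 r) with hL
  have hsubU : closedBall (0 : ℂ) r ⊆ UD := by
    intro y hy
    rw [mem_closedBall_zero_iff] at hy
    rw [HY.UD, mem_ball_zero_iff]
    linarith
  have hKc : IsCompact (φ' '' closedBall 0 r) :=
    (isCompact_closedBall (0 : ℂ) r).image_of_continuousOn (h.rm'.dif.continuousOn.mono hsubU)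
  have hLc : IsCompact L := by
    have h1 : IsCompact (closure W) := h.bd.isCompact_closure
    exact h1.inter_right (hKc.isClosed.preimage f.continuous)
  have hLW : L ⊆ W := by
    intro z hz
    by_contra hzW
    have h1 : z ∈ frontier W := by
      refine ⟨hz.1, ?_⟩
      rw [(RM_open h.rm).interior_eq]
      exact hzW
    refine h.fro z h1 ?_
    obtain ⟨w, hw, hwz⟩ := hz.2
    have h2 : f.eval z = φ' w := hwz.symm
    rw [h2]
    exact RM_mem h.rm' (hsubU hw)
  have h1 : {y | y ∈ UD ∧ ‖BB f φ φ' y‖ ≤ r} = co φ '' L := by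
    ext y
    constructor
    · rintro ⟨hy, hyr⟩
      refine ⟨φ y, ⟨subset_closure (RM_mem h.rm hy), ?_⟩, co_phi h.rm hy⟩
      exact ⟨BB f φ φ' y, by rw [mem_closedBall_zero_iff]; exact hyr, (BB_spec h hy).2⟩
    · rintro ⟨z, hz, rfl⟩
      obtain ⟨h2, h3⟩ := co_spec h.rm (hLW hz)
      refine ⟨h2, ?_⟩
      obtain ⟨w, hw, hwz⟩ := hz.2
      have h4 : f.eval z = φ' w := hwz.symm
      rw [BB, h3, h4, co_phi h.rm' (hsubU hw)]
      simpa using hw
  rw [h1]
  exact (hLc.image_of_continuousOn ((co_dif h.rm).continuousOn.mono hLW)).isClosed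

end

open Classical in
/-- the coordinates of the roots of `p` in `W`. -/
def RW (M : Multiset ℂ) (W : Set ℂ) (φ : ℂ → ℂ) : Multiset ℂ := (M.filter (fun r => r ∈ W)).map (co φ)

theorem RW_mem {W : Set ℂ} {x : ℂ} {φ : ℂ → ℂ} (h : RM W x φ) (M : Multiset ℂ) : ∀ a ∈ RW M W φ, a ∈ UD := by
  classical
  intro a ha
  obtain ⟨r, hr, rfl⟩ := Multiset.mem_map.1 ha
  exact (co_spec h (Multiset.mem_filter.1 hr).2).1

theorem RW_card (M : Multiset ℂ) (W : Set ℂ) (φ : ℂ → ℂ) : Multiset.card (RW M W φ) ≤ Multiset.card M := by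
  classical
  rw [RW, Multiset.card_map]
  exact Multiset.card_le_card (Multiset.filter_le _ _)

theorem den_ne {c y : ℂ} (hc : c ∈ UD) (hy : y ∈ UD) : 1 - (starRingEnd ℂ) c * y ≠ 0 := by
  have h1 : y ∈ DM (c ::ₘ 0) := by
    refine DM_ball ?_ ?_
    · intro a ha
      simp only [Multiset.cons_zero, Multiset.mem_singleton] at ha
      rw [ha]
      exact hc
    · have h2 : ‖y‖ < 1 := by simpa [HY.UD] using hy
      exact h2.le
  exact h1 c (Multiset.mem_cons_self c 0)

/-- zero free factor. -/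
theorem ZF {W : Set ℂ} {x : ℂ} {φ : ℂ → ℂ} (h : RM W x φ) (M : Multiset ℂ) :
    ∃ g : ℂ → ℂ, DifferentiableOn ℂ g UD ∧ (∀ y ∈ UD, g y ≠ 0) ∧
      (∀ y ∈ UD, (M.map (fun r => φ y - r)).prod = BP (RW M W φ) y * g y) := by
  classical
  induction M using Multiset.induction with
  | empty =>
    refine ⟨fun _ => 1, differentiableOn_const _, fun _ _ => one_ne_zero, ?_⟩
    intro y _
    simp [BP, RW]
  | cons r M ih =>
    obtain ⟨g, hg, hg0, hp⟩ := ih
    by_cases hr : r ∈ W
    · obtain ⟨hcU, hcr⟩ := co_spec h hr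
      have hRW : RW (r ::ₘ M) W φ = co φ r ::ₘ RW M W φ := by
        rw [RW, Multiset.filter_cons_of_pos _ hr, Multiset.map_cons]
        rfl
      rw [hRW]
      set c := co φ r with hcdef
      refine ⟨fun y => dslope φ c y * (1 - (starRingEnd ℂ) c * y) * g y, ?_, ?_, ?_⟩
      · refine DifferentiableOn.mul (DifferentiableOn.mul ?_ (by fun_prop)) hg
        exact (Complex.differentiableOn_dslope (UD_open.mem_nhds hcU)).2 h.dif
      · intro y hy
        refine mul_ne_zero (mul_ne_zero ?_ (den_ne hcU hy)) (hg0 y hy)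
        by_cases hyc : y = c
        · rw [hyc, dslope_same]
          exact RM_der h hcU
        · rw [dslope_of_ne _ hyc, slope_def_field]
          refine div_ne_zero (sub_ne_zero.2 ?_) (sub_ne_zero.2 hyc)
          intro h0
          exact hyc (h.inj hy hcU h0)
      · intro y hy
        rw [Multiset.map_cons, Multiset.prod_cons, hp y hy, BP_cons]
        have h1 : φ y - r = (y - c) * dslope φ c y := by
          have h2 := sub_smul_dslope φ c y
          rw [smul_eq_mul] at h2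
          rw [h2, hcr]
        have h3 : T c y * (1 - (starRingEnd ℂ) c * y) = y - c := by
          rw [HY.T]
          exact div_mul_cancel₀ _ (den_ne hcU hy)
        rw [h1, ← h3]
        ring
    · have hRW : RW (r ::ₘ M) W φ = RW M W φ := by
        rw [RW, Multiset.filter_cons_of_neg _ hr]
        rfl
      rw [hRW]
      refine ⟨fun y => (φ y - r) * g y, ?_, ?_, ?_⟩
      · exact (h.dif.sub_const r).mul hg
      · intro y hy
        refine mul_ne_zero ?_ (hg0 y hy)
        intro h0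
        rw [sub_eq_zero] at h0
        exact hr (h0 ▸ RM_mem h hy)
      · intro y hy
        rw [Multiset.map_cons, Multiset.prod_cons, hp y hy]
        ring

theorem poly_roots (p : Polynomial ℂ) (z : ℂ) : p.eval z = p.leadingCoeff * (p.roots.map (fun r => z - r)).prod := by
  have h1 : p = Polynomial.C p.leadingCoeff * (p.roots.map (fun a => Polynomial.X - Polynomial.C a)).prod :=
    (IsAlgClosed.splits p).eq_prod_roots
  conv_lhs => rw [h1]
  rw [Polynomial.eval_mul, Polynomial.eval_C, Polynomial.eval_multiset_prod, Multiset.map_map]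
  simp

theorem BP_le {s : Multiset ℂ} (hs : ∀ a ∈ s, a ∈ UD) {y : ℂ} (hy : y ∈ UD) : ‖BP s y‖ ≤ 1 := by
  induction s using Multiset.induction with
  | empty => simp [BP]
  | cons a s ih =>
    rw [BP_cons, norm_mul]
    have h1 := ih (fun b hb => hs b (Multiset.mem_cons_of_mem hb))
    have h2 : ‖T a y‖ < 1 := by
      have h3 := ((HY.MOB a (hs a (Multiset.mem_cons_self a s))).1 y hy).1
      simpa [HY.UD] using h3
    nlinarith [norm_nonneg (T a y), norm_nonneg (BP s y)]

/-- `f` in coordinates is a finite Blaschke product. -/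
theorem BLA {f : Polynomial ℂ} {W W' : Set ℂ} {x : ℂ} {φ φ' : ℂ → ℂ} (h : PX f W W' x φ φ') (hd : 1 ≤ f.natDegree) :
    ∃ u : ℂ, ‖u‖ = 1 ∧ ∀ y ∈ UD, BB f φ φ' y = u * BP (RW (f - Polynomial.C (f.eval x)).roots W φ) y := by
  set p := f - Polynomial.C (f.eval x) with hp
  have hpd : p.natDegree = f.natDegree := by
    rw [hp]
    exact Polynomial.natDegree_sub_C
  have hp0 : p ≠ 0 := by
    intro h0
    rw [h0, Polynomial.natDegree_zero] at hpd
    omega
  have hlc : p.leadingCoeff ≠ 0 := Polynomial.leadingCoeff_ne_zero.2 hp0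
  set s := RW p.roots W φ with hs
  have hsU : ∀ a ∈ s, a ∈ UD := RW_mem h.rm _
  obtain ⟨g, hg, hg0, hgp⟩ := ZF h.rm p.roots
  have h00 : (0 : ℂ) ∈ UD := zero_UD
  have hBd := BB_dif h
  have hBm : MapsTo (BB f φ φ') UD UD := fun y hy => (BB_spec h hy).1
  have hH : DifferentiableOn ℂ (fun y => dslope φ' 0 (BB f φ φ' y)) UD :=
    ((Complex.differentiableOn_dslope (UD_open.mem_nhds h00)).2 h.rm'.dif).comp hBd hBm
  have hH0 : ∀ y ∈ UD, dslope φ' 0 (BB f φ φ' y) ≠ 0 := by
    intro y hy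
    have hb := hBm hy
    by_cases hyc : BB f φ φ' y = 0
    · rw [hyc, dslope_same]
      exact RM_der h.rm' h00
    · rw [dslope_of_ne _ hyc, slope_def_field]
      refine div_ne_zero (sub_ne_zero.2 ?_) (sub_ne_zero.2 hyc)
      intro h0
      exact hyc (h.rm'.inj hb h00 h0)
  set G : ℂ → ℂ := fun y => p.leadingCoeff * g y / dslope φ' 0 (BB f φ φ' y) with hG
  have hGd : DifferentiableOn ℂ G UD := (hg.const_mul _).div hH hH0
  have hG0 : ∀ y ∈ UD, G y ≠ 0 := fun y hy => div_ne_zero (mul_ne_zero hlc (hg0 y hy)) (hH0 y hy)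
  have hBG : ∀ y ∈ UD, BB f φ φ' y = BP s y * G y := by
    intro y hy
    have h1 : p.eval (φ y) = BB f φ φ' y * dslope φ' 0 (BB f φ φ' y) := by
      have h2 := sub_smul_dslope φ' 0 (BB f φ φ' y)
      rw [smul_eq_mul, sub_zero] at h2
      rw [h2, (BB_spec h hy).2, h.rm'.val, hp]
      simp
    have h2 : p.eval (φ y) = p.leadingCoeff * (BP s y * g y) := by
      rw [poly_roots p, hgp y hy]
    rw [h1] at h2
    rw [hG]
    simp only
    rw [mul_div_assoc', eq_div_iff (hH0 y hy), h2]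
    ring
  have hBPc : ContinuousOn (BP s) (closedBall 0 1) := by
    refine (BP_dif s).continuousOn.mono ?_
    intro z hz
    exact DM_ball hsU (by simpa using hz)
  have hle : ∀ y ∈ UD, ‖G y‖ ≤ 1 := by
    intro y hy
    refine le_of_forall_pos_le_add ?_
    intro ε hε
    set K : Set ℂ := closedBall (0 : ℂ) 1 ∩ (fun z => (1 + ε) * ‖BP s z‖) ⁻¹' (Iic 1) with hK
    have hKc : IsClosed K :=
      ContinuousOn.preimage_isClosed_of_isClosed (continuousOn_const.mul hBPc.norm) isClosed_closedBall isClosed_Iic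
    refine max_lim hGd hKc ?_ ?_ y hy
    · intro z hz h1
      have h2 := (BP_circle hsU h1).2
      have h3 := hz.2
      rw [mem_preimage, mem_Iic, h2] at h3
      linarith
    · intro z hz hzK
      have h1 : 1 < (1 + ε) * ‖BP s z‖ := by
        by_contra h2
        push Not at h2
        exact hzK ⟨ball_subset_closedBall hz, h2⟩
      have h2 : ‖BB f φ φ' z‖ < 1 := by simpa [HY.UD] using hBm hz
      rw [hBG z hz, norm_mul] at h2
      nlinarith [norm_nonneg (G z), norm_nonneg (BP s z)]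
  have hge : ∀ y ∈ UD, ‖(G y)⁻¹‖ ≤ 1 := by
    intro y hy
    refine le_of_forall_pos_le_add ?_
    intro ε hε
    have hr : 1 / (1 + ε) < 1 := by
      rw [div_lt_one (by linarith)]
      linarith
    refine max_lim (hGd.inv hG0) (BB_proper h hr) ?_ ?_ y hy
    · intro z hz h1
      have h2 : ‖z‖ < 1 := by simpa [HY.UD] using hz.1
      linarith
    · intro z hz hzK
      have h1 : 1 / (1 + ε) < ‖BB f φ φ' z‖ := by
        by_contra h2
        push Not at h2
        exact hzK ⟨hz, h2⟩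
      have h2 := BP_le hsU hz
      have hGz : 0 < ‖G z‖ := norm_pos_iff.2 (hG0 z hz)
      rw [hBG z hz, norm_mul, div_lt_iff₀ (by linarith)] at h1
      show ‖(G z)⁻¹‖ ≤ 1 + ε
      rw [norm_inv, inv_le_comm₀ hGz (by linarith), ← one_div, div_le_iff₀ (by linarith)]
      have h3 := mul_nonneg (sub_nonneg.2 h2) (mul_pos hGz (by linarith : (0 : ℝ) < 1 + ε)).le
      nlinarith
  have hone : ∀ y ∈ UD, ‖G y‖ = 1 := by
    intro y hy
    have h1 := hle y hy
    have h2 := hge y hy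
    have hGz : 0 < ‖G y‖ := norm_pos_iff.2 (hG0 y hy)
    rw [norm_inv, inv_le_one₀ hGz] at h2
    linarith
  have hconst : EqOn G (Function.const ℂ (G 0)) UD := by
    refine Complex.eqOn_of_isPreconnected_of_isMaxOn_norm (convex_ball (0 : ℂ) 1).isPreconnected UD_open hGd h00 ?_
    intro y hy
    show ‖G y‖ ≤ ‖G 0‖
    rw [hone y hy, hone 0 h00]
  refine ⟨G 0, hone 0 h00, fun y hy => ?_⟩
  rw [hBG y hy, hconst hy, Function.const_apply]
  ring

end PO
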