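import Pool.Agent.helper25.HY.MOB

/-!
# Project po: finite Blaschke products and the LOSS inequality
-/

set_option autoImplicit false

open Complex Metric Set Filter Topology

noncomputable section

namespace PO

open HY (UD T S RM)

/-- Blaschke product with the zeros `s`. -/
def BP (s : Multiset ℂ) (z : ℂ) : ℂ := (s.map (fun a => T a z)).prod

theorem BP_zero (z : ℂ) : BP 0 z = 1 := by simp [BP]

theorem BP_cons (a : ℂ) (s : Multiset ℂ) (z : ℂ) : BP (a ::ₘ s) z = T a z * BP s z := by simp [BP]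

/-- the open set on which the Blaschke product is holomorphic. -/
def DM (s : Multiset ℂ) : Set ℂ := {z | ∀ a ∈ s, 1 - (starRingEnd ℂ) a * z ≠ 0}

theorem DM_open (s : Multiset ℂ) : IsOpen (DM s) := by
  induction s using Multiset.induction with
  | empty => simp [DM]
  | cons a s ih =>
    have h1 : DM (a ::ₘ s) = {z | 1 - (starRingEnd ℂ) a * z ≠ 0} ∩ DM s := by
      ext z
      simp [DM]
    rw [h1]
    refine IsOpen.inter ?_ ih
    exact isOpen_ne_fun (by fun_prop) continuous_const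

theorem DM_ball {s : Multiset ℂ} (hs : ∀ a ∈ s, a ∈ UD) {z : ℂ} (hz : ‖z‖ ≤ 1) : z ∈ DM s := by
  intro a ha h0
  have h1 : ‖a‖ < 1 := by simpa [HY.UD] using hs a ha
  have h2 : (starRingEnd ℂ) a * z = 1 := by linear_combination -h0
  have h3 := congrArg norm h2
  rw [norm_mul, RCLike.norm_conj, norm_one] at h3
  nlinarith [norm_nonneg a, norm_nonneg z]

theorem T_hasDeriv {a z : ℂ} (h : 1 - (starRingEnd ℂ) a * z ≠ 0) :
    HasDerivAt (T a) ((1 - (starRingEnd ℂ) a * a) / (1 - (starRingEnd ℂ) a * z) ^ 2) z := by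
  have h1 : HasDerivAt (fun x : ℂ => x - a) 1 z := (hasDerivAt_id z).sub_const a
  have h2 : HasDerivAt (fun x : ℂ => 1 - (starRingEnd ℂ) a * x) (-((starRingEnd ℂ) a)) z := by
    have h3 := ((hasDerivAt_id z).const_mul ((starRingEnd ℂ) a)).const_sub 1
    simpa using h3
  have h3 := h1.div h2 h
  have h4 : (1 * (1 - (starRingEnd ℂ) a * z) - (z - a) * (-((starRingEnd ℂ) a))) / (1 - (starRingEnd ℂ) a * z) ^ 2 =
      (1 - (starRingEnd ℂ) a * a) / (1 - (starRingEnd ℂ) a * z) ^ 2 := by
    congr 1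
    ring
  rw [h4] at h3
  exact h3

theorem BP_dif (s : Multiset ℂ) : DifferentiableOn ℂ (BP s) (DM s) := by
  induction s using Multiset.induction with
  | empty =>
    have h1 : BP 0 = fun _ => (1 : ℂ) := funext BP_zero
    rw [h1]
    exact differentiableOn_const _
  | cons a s ih =>
    intro z hz
    have h1 : 1 - (starRingEnd ℂ) a * z ≠ 0 := hz a (Multiset.mem_cons_self a s)
    have h2 : z ∈ DM s := fun b hb => hz b (Multiset.mem_cons_of_mem hb)
    have h3 : DifferentiableAt ℂ (BP s) z := ih.differentiableAt ((DM_open s).mem_nhds h2)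
    have h4 : BP (a ::ₘ s) = fun z => T a z * BP s z := funext (BP_cons a s)
    rw [h4]
    exact ((T_hasDeriv h1).differentiableAt.mul h3).differentiableWithinAt

/-- Poisson kernel. -/
def PK (z a : ℂ) : ℝ := (1 - ‖a‖ ^ 2) / ‖z - a‖ ^ 2

theorem PK_nonneg {z a : ℂ} (ha : a ∈ UD) : 0 ≤ PK z a := by
  have h1 : ‖a‖ < 1 := by simpa [HY.UD] using ha
  unfold PK
  apply div_nonneg _ (by positivity)
  nlinarith [norm_nonneg a]

theorem T_circle {a z : ℂ} (ha : a ∈ UD) (hz : ‖z‖ = 1) :
    HasDerivAt (T a) (T a z * ((starRingEnd ℂ) z * (PK z a : ℂ))) z ∧ ‖T a z‖ = 1 := by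
  have h1 : ‖a‖ < 1 := by simpa [HY.UD] using ha
  have hza : z - a ≠ 0 := by
    intro h0
    rw [sub_eq_zero] at h0
    rw [h0] at hz
    linarith
  have hzz : z * (starRingEnd ℂ) z = 1 := by
    rw [Complex.mul_conj, Complex.normSq_eq_norm_sq, hz]
    simp
  have hz0 : z ≠ 0 := by
    intro h0
    rw [h0] at hz
    simp at hz
  have hden : 1 - (starRingEnd ℂ) a * z = z * (starRingEnd ℂ) (z - a) := by
    rw [map_sub]
    linear_combination -hzz
  have hcza : (starRingEnd ℂ) (z - a) ≠ 0 := by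
    intro h0
    exact hza ((map_eq_zero _).1 h0)
  have hden0 : 1 - (starRingEnd ℂ) a * z ≠ 0 := by
    rw [hden]
    exact mul_ne_zero hz0 hcza
  have haa : (starRingEnd ℂ) a * a = (‖a‖ : ℂ) ^ 2 := by
    rw [mul_comm, Complex.mul_conj, Complex.normSq_eq_norm_sq]
    push_cast
    rfl
  have hnn : (z - a) * (starRingEnd ℂ) (z - a) = (‖z - a‖ : ℂ) ^ 2 := by
    rw [Complex.mul_conj, Complex.normSq_eq_norm_sq]
    push_cast
    rfl
  constructor
  · refine (T_hasDeriv hden0).congr_deriv ?_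
    have hPK : (PK z a : ℂ) = (1 - (‖a‖ : ℂ) ^ 2) / ((z - a) * (starRingEnd ℂ) (z - a)) := by
      rw [hnn, PK]
      push_cast
      rfl
    have hT : T a z = (z - a) / (z * (starRingEnd ℂ) (z - a)) := by
      rw [HY.T, hden]
    rw [hPK, hT, haa, hden]
    have hzc : (starRingEnd ℂ) z = 1 / z := by
      rw [eq_div_iff hz0]
      linear_combination hzz
    rw [hzc]
    field_simp
  · rw [HY.T, hden, norm_div, norm_mul, hz, one_mul, RCLike.norm_conj, div_self]
    exact norm_ne_zero_iff.2 hza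

theorem BP_circle {s : Multiset ℂ} (hs : ∀ a ∈ s, a ∈ UD) {z : ℂ} (hz : ‖z‖ = 1) :
    HasDerivAt (BP s) (BP s z * ((starRingEnd ℂ) z * ((s.map (fun a => PK z a)).sum : ℝ))) z ∧ ‖BP s z‖ = 1 := by
  induction s using Multiset.induction with
  | empty =>
    have h1 : BP 0 = fun _ => (1 : ℂ) := funext BP_zero
    rw [h1]
    constructor
    · simpa using hasDerivAt_const z (1 : ℂ)
    · simp
  | cons a s ih =>
    obtain ⟨h1, h2⟩ := ih (fun b hb => hs b (Multiset.mem_cons_of_mem hb))
    obtain ⟨h3, h4⟩ := T_circle (hs a (Multiset.mem_cons_self a s)) hz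
    have h5 : BP (a ::ₘ s) = fun z => T a z * BP s z := funext (BP_cons a s)
    rw [h5]
    constructor
    · refine (h3.mul h1).congr_deriv ?_
      rw [Multiset.map_cons, Multiset.sum_cons]
      push_cast
      ring
    · simp only
      rw [norm_mul, h2, h4, one_mul]

end PO
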