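import Pool.Agent.helper58.PO.BP

/-!
# Project po: the LOSS inequality for finite Blaschke products
-/

set_option autoImplicit false

open Complex Metric Set Filter Topology

noncomputable section

namespace PO

open HY (UD T S RM)

/-- the derivative of the product of degree two whose critical point is `c`, divided by `T c`. -/
def E2 (c z : ℂ) : ℂ := 2 * (1 - (starRingEnd ℂ) c * z) ^ 2 /
  ((1 + (‖c‖ : ℂ) ^ 2) * (1 - (starRingEnd ℂ) (2 * c / (1 + (‖c‖ : ℂ) ^ 2)) * z) ^ 2)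

theorem mid_exists {a : ℂ} (ha : a ∈ UD) : ∃ c ∈ UD, 2 * c / (1 + (‖c‖ : ℂ) ^ 2) = a := by
  have h1 : ‖a‖ < 1 := by simpa [HY.UD] using ha
  set w := Real.sqrt (1 - ‖a‖ ^ 2) with hw
  have hw2 : w ^ 2 = 1 - ‖a‖ ^ 2 := Real.sq_sqrt (by nlinarith [norm_nonneg a])
  have hw0 : 0 ≤ w := Real.sqrt_nonneg _
  have hw1 : 0 < 1 + w := by linarith
  refine ⟨a / ((1 + w : ℝ) : ℂ), ?_, ?_⟩
  · rw [HY.UD, mem_ball_zero_iff, norm_div, Complex.norm_real, Real.norm_of_nonneg hw1.le, div_lt_one hw1]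
    linarith
  · have hn : ‖a / ((1 + w : ℝ) : ℂ)‖ = ‖a‖ / (1 + w) := by
      rw [norm_div, Complex.norm_real, Real.norm_of_nonneg hw1.le]
    rw [hn]
    have h2 : (1 + (((‖a‖ / (1 + w) : ℝ)) : ℂ) ^ 2) = ((2 / (1 + w) : ℝ) : ℂ) := by
      have h3 : 1 + (‖a‖ / (1 + w)) ^ 2 = 2 / (1 + w) := by
        field_simp
        nlinarith
      rw [← h3]
      push_cast
      ring
    rw [h2]
    have h4 : ((1 + w : ℝ) : ℂ) ≠ 0 := by exact_mod_cast hw1.ne'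
    push_cast at h4 ⊢
    field_simp

theorem dbl_UD {c : ℂ} (hc : c ∈ UD) : 2 * c / (1 + (‖c‖ : ℂ) ^ 2) ∈ UD := by
  have h1 : ‖c‖ < 1 := by simpa [HY.UD] using hc
  have h2 : (0 : ℝ) < 1 + ‖c‖ ^ 2 := by positivity
  have h3 : ‖(1 + (‖c‖ : ℂ) ^ 2)‖ = 1 + ‖c‖ ^ 2 := by
    have h4 : (1 + (‖c‖ : ℂ) ^ 2) = ((1 + ‖c‖ ^ 2 : ℝ) : ℂ) := by push_cast; ring
    rw [h4, Complex.norm_real, Real.norm_of_nonneg h2.le]
  rw [HY.UD, mem_ball_zero_iff, norm_div, h3, norm_mul, div_lt_one h2]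
  simp only [Complex.norm_ofNat]
  nlinarith [sq_nonneg (1 - ‖c‖)]

theorem E2_circle {c z : ℂ} (hc : c ∈ UD) (hz : ‖z‖ = 1) :
    ‖E2 c z‖ = 1 + PK z (2 * c / (1 + (‖c‖ : ℂ) ^ 2)) := by
  set x := 2 * c / (1 + (‖c‖ : ℂ) ^ 2) with hx
  have hxU : x ∈ UD := dbl_UD hc
  have key : ∀ b : ℂ, ‖1 - (starRingEnd ℂ) b * z‖ ^ 2 = 1 + ‖b‖ ^ 2 - 2 * (z * (starRingEnd ℂ) b).re ∧
      ‖z - b‖ ^ 2 = 1 + ‖b‖ ^ 2 - 2 * (z * (starRingEnd ℂ) b).re := by
    intro b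
    have h1 : z.re ^ 2 + z.im ^ 2 = 1 := by
      have := Complex.sq_norm z
      rw [hz, Complex.normSq_apply] at this
      nlinarith
    constructor
    · rw [Complex.sq_norm, Complex.sq_norm, Complex.normSq_apply, Complex.normSq_apply]
      simp
      nlinarith [mul_self_nonneg b.re, h1, congrArg (fun t => t * (b.re ^ 2 + b.im ^ 2)) h1]
    · rw [Complex.sq_norm, Complex.sq_norm, Complex.normSq_apply, Complex.normSq_apply]
      simp
      nlinarith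
  have h2 : (0 : ℝ) < 1 + ‖c‖ ^ 2 := by positivity
  have h3 : ‖(1 + (‖c‖ : ℂ) ^ 2)‖ = 1 + ‖c‖ ^ 2 := by
    have h4 : (1 + (‖c‖ : ℂ) ^ 2) = ((1 + ‖c‖ ^ 2 : ℝ) : ℂ) := by push_cast; ring
    rw [h4, Complex.norm_real, Real.norm_of_nonneg h2.le]
  have h5 : ‖E2 c z‖ = 2 * ‖1 - (starRingEnd ℂ) c * z‖ ^ 2 / ((1 + ‖c‖ ^ 2) * ‖1 - (starRingEnd ℂ) x * z‖ ^ 2) := by
    rw [E2, norm_div, norm_mul, norm_mul, norm_pow, norm_pow, h3]
    simp only [Complex.norm_ofNat]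
    rw [← hx]
  have hx1 : ‖x‖ < 1 := by simpa [HY.UD] using hxU
  have hzx : 0 < ‖z - x‖ ^ 2 := by
    have : z - x ≠ 0 := by
      intro h0
      rw [sub_eq_zero] at h0
      rw [h0] at hz
      linarith
    have := norm_pos_iff.2 this
    positivity
  rw [h5, (key c).1, (key x).1, ← (key x).2, PK]
  have hre : (1 + ‖c‖ ^ 2) * (z * (starRingEnd ℂ) x).re = 2 * (z * (starRingEnd ℂ) c).re := by
    have h6 : ((1 + ‖c‖ ^ 2 : ℝ) : ℂ) * (z * (starRingEnd ℂ) x) = 2 * (z * (starRingEnd ℂ) c) := by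
      have h7 : (starRingEnd ℂ) x = 2 * (starRingEnd ℂ) c / ((1 + ‖c‖ ^ 2 : ℝ) : ℂ) := by
        have h11 : (starRingEnd ℂ) (2 : ℂ) = 2 := by
          apply Complex.ext <;> simp
        rw [hx, map_div₀, map_mul, h11]
        simp
      rw [h7]
      have h8 : ((1 + ‖c‖ ^ 2 : ℝ) : ℂ) ≠ 0 := by exact_mod_cast h2.ne'
      field_simp
    have h9 := congrArg Complex.re h6
    rw [Complex.re_ofReal_mul] at h9
    rw [h9]
    simp
  have h10 := (key x).2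
  set D := ‖z - x‖ ^ 2 with hD
  rw [div_eq_iff (mul_pos h2 hzx).ne']
  have h12 : (1 + (1 - ‖x‖ ^ 2) / D) * ((1 + ‖c‖ ^ 2) * D) = (1 + ‖c‖ ^ 2) * (D + (1 - ‖x‖ ^ 2)) := by
    field_simp
  rw [h12, h10]
  linear_combination 2 * hre

/-- maximum principle on the open disc with boundary bound in the limit. -/
theorem max_lim {g : ℂ → ℂ} (hg : DifferentiableOn ℂ g UD) {K : Set ℂ} (hK : IsClosed K) (hKs : ∀ z ∈ K, ‖z‖ ≠ 1) {C : ℝ}
    (hC : ∀ z ∈ UD, z ∉ K → ‖g z‖ ≤ C) : ∀ z ∈ UD, ‖g z‖ ≤ C := by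
  intro z hz
  have hcpt : IsCompact (K ∩ closedBall (0 : ℂ) 1) := (isCompact_closedBall (0 : ℂ) 1).inter_left hK
  obtain ⟨t, ht1, ht⟩ : ∃ t < (1 : ℝ), ∀ w ∈ K ∩ closedBall (0 : ℂ) 1, ‖w‖ ≤ t := by
    rcases (K ∩ closedBall (0 : ℂ) 1).eq_empty_or_nonempty with h0 | hne
    · exact ⟨0, by norm_num, by rw [h0]; simp⟩
    · obtain ⟨w, hw, hmax⟩ := hcpt.exists_isMaxOn hne continuous_norm.continuousOn
      refine ⟨‖w‖, ?_, fun v hv => hmax hv⟩
      have h1 : ‖w‖ ≤ 1 := by simpa using hw.2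
      exact lt_of_le_of_ne h1 (hKs w hw.1)
  have hz1 : ‖z‖ < 1 := by simpa [HY.UD] using hz
  obtain ⟨r, hr1, hr2⟩ := exists_between (max_lt (max_lt ht1 hz1) (zero_lt_one))
  have hrt : t < r := lt_of_le_of_lt ((le_max_left _ _).trans (le_max_left _ _)) hr1
  have hrz : ‖z‖ < r := lt_of_le_of_lt ((le_max_right _ _).trans (le_max_left _ _)) hr1
  have hr0 : 0 < r := lt_of_le_of_lt (le_max_right _ _) hr1
  have hsub : closedBall (0 : ℂ) r ⊆ UD := by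
    intro w hw
    rw [mem_closedBall_zero_iff] at hw
    rw [HY.UD, mem_ball_zero_iff]
    linarith
  have hcl : DiffContOnCl ℂ g (ball 0 r) := by
    refine DifferentiableOn.diffContOnCl ?_
    rw [closure_ball (0 : ℂ) hr0.ne']
    exact hg.mono hsub
  refine Complex.norm_le_of_forall_mem_frontier_norm_le isBounded_ball hcl ?_
    (subset_closure (by rw [mem_ball_zero_iff]; exact hrz))
  intro w hw
  rw [frontier_ball (0 : ℂ) hr0.ne', mem_sphere_zero_iff_norm] at hw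
  refine hC w (hsub (by rw [mem_closedBall_zero_iff, hw])) ?_
  intro hwK
  have := ht w ⟨hwK, by rw [mem_closedBall_zero_iff, hw]; linarith⟩
  rw [hw] at this
  linarith

theorem E2_cont {c : ℂ} (hc : c ∈ UD) : DifferentiableOn ℂ (E2 c) (closedBall 0 1) := by
  have hx := dbl_UD hc
  intro z hz
  have hz1 : ‖z‖ ≤ 1 := by simpa using hz
  have h1 : (1 - (starRingEnd ℂ) (2 * c / (1 + (‖c‖ : ℂ) ^ 2)) * z) ≠ 0 := by
    have h2 : z ∈ DM {2 * c / (1 + (‖c‖ : ℂ) ^ 2)} := by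
      refine DM_ball ?_ hz1
      intro a ha
      rw [Multiset.mem_singleton] at ha
      rw [ha]
      exact hx
    exact h2 _ (Multiset.mem_singleton_self _)
  have h2 : (1 + (‖c‖ : ℂ) ^ 2) ≠ 0 := by
    have h3 : (0 : ℝ) < 1 + ‖c‖ ^ 2 := by positivity
    exact_mod_cast h3.ne'
  unfold E2
  refine DifferentiableAt.differentiableWithinAt ?_
  refine DifferentiableAt.div (by fun_prop) (by fun_prop) ?_
  exact mul_ne_zero h2 (pow_ne_zero 2 h1)

/-- the derivative of a Blaschke product with a zero at `0`. -/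
theorem LOS_der0 {s : Multiset ℂ} (hs : ∀ a ∈ s, a ∈ UD) (u : ℂ) :
    HasDerivAt (fun z => u * BP (0 ::ₘ s) z) (u * BP s 0) 0 := by
  have h1 : (fun z => u * BP (0 ::ₘ s) z) = fun z => u * (z * BP s z) := by
    funext z
    rw [BP_cons]
    have h2 : T 0 z = z := by simp [HY.T]
    rw [h2]
  rw [h1]
  have h3 : DifferentiableAt ℂ (BP s) 0 :=
    (BP_dif s).differentiableAt ((DM_open s).mem_nhds (DM_ball hs (by simp)))
  have h4 := ((hasDerivAt_id (0 : ℂ)).mul h3.hasDerivAt).const_mul u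
  refine h4.congr_deriv ?_
  simp

theorem LOS_pt {s : Multiset ℂ} (hs : ∀ a ∈ s, a ∈ UD) {u : ℂ} (hu : ‖u‖ = 1) {q k : ℂ → ℂ} (hk : DifferentiableOn ℂ k UD)
    (hq : ∀ z ∈ UD, ‖q z‖ ≤ 1) (hqk : ∀ z ∈ UD, q z = k z * deriv (fun z => u * BP (0 ::ₘ s) z) z)
    {c : ℂ} (hc : c ∈ UD) (hcs : 2 * c / (1 + (‖c‖ : ℂ) ^ 2) ∈ s) :
    ‖k 0‖ * (2 / (1 + ‖c‖ ^ 2)) ≤ 1 := by
  set B : ℂ → ℂ := fun z => u * BP (0 ::ₘ s) z with hB
  set x := 2 * c / (1 + (‖c‖ : ℂ) ^ 2) with hx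
  have hs0 : ∀ a ∈ (0 ::ₘ s), a ∈ UD := by
    intro a ha
    rcases Multiset.mem_cons.1 ha with h | h
    · rw [h]
      simp [HY.UD]
    · exact hs a h
  have hBd : DifferentiableOn ℂ B (DM (0 ::ₘ s)) := (BP_dif _).const_mul u
  have hBd' : DifferentiableOn ℂ (deriv B) (DM (0 ::ₘ s)) := hBd.deriv (DM_open _)
  have hcb : closedBall (0 : ℂ) 1 ⊆ DM (0 ::ₘ s) := fun z hz => DM_ball hs0 (by simpa using hz)
  have hBc : ContinuousOn (deriv B) (closedBall 0 1) := hBd'.continuousOn.mono hcb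
  have hEc : ContinuousOn (E2 c) (closedBall 0 1) := (E2_cont hc).continuousOn
  have hxs : x ∈ UD := hs x hcs
  have hcirc : ∀ z : ℂ, ‖z‖ = 1 → ‖E2 c z‖ ≤ ‖deriv B z‖ ∧ 1 ≤ ‖deriv B z‖ := by
    intro z hz
    obtain ⟨h1, h2⟩ := BP_circle hs0 hz
    have h3 : deriv B z = u * (BP (0 ::ₘ s) z * ((starRingEnd ℂ) z * (((0 ::ₘ s).map (fun a => PK z a)).sum : ℝ))) :=
      (h1.const_mul u).deriv
    have hsum : 1 + PK z x ≤ ((0 ::ₘ s).map (fun a => PK z a)).sum := by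
      rw [Multiset.map_cons, Multiset.sum_cons]
      have h4 : PK z 0 = 1 := by simp [PK, hz]
      rw [h4]
      have h5 : PK z x ≤ (s.map (fun a => PK z a)).sum := by
        refine Multiset.single_le_sum ?_ _ (Multiset.mem_map_of_mem _ hcs)
        intro y hy
        obtain ⟨b, hb, rfl⟩ := Multiset.mem_map.1 hy
        exact PK_nonneg (hs b hb)
      linarith
    have hpx := PK_nonneg (z := z) hxs
    have h6 : ‖deriv B z‖ = ((0 ::ₘ s).map (fun a => PK z a)).sum := by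
      rw [h3, norm_mul, hu, norm_mul, h2, norm_mul, RCLike.norm_conj, hz, Complex.norm_real, Real.norm_of_nonneg]
      · ring
      · linarith
    rw [h6, E2_circle hc hz]
    exact ⟨hsum, by linarith⟩
  have hlim : ∀ ε > (0 : ℝ), ‖k 0 * E2 c 0‖ ≤ 1 + ε := by
    intro ε hε
    set K : Set ℂ := {z | z ∈ closedBall (0 : ℂ) 1 ∧ (1 + ε) * ‖deriv B z‖ ≤ ‖E2 c z‖} with hK
    have hKc : IsClosed K := by
      have h1 : K = closedBall (0 : ℂ) 1 ∩ (fun z => ‖E2 c z‖ - (1 + ε) * ‖deriv B z‖) ⁻¹' (Ici 0) := by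
        ext z
        simp only [hK, mem_ofPred_eq, mem_inter_iff, mem_preimage, mem_Ici, sub_nonneg]
      rw [h1]
      exact ContinuousOn.preimage_isClosed_of_isClosed (hEc.norm.sub (continuousOn_const.mul hBc.norm)) isClosed_closedBall isClosed_Ici
    have hKs : ∀ z ∈ K, ‖z‖ ≠ 1 := by
      intro z hz h1
      obtain ⟨h2, h3⟩ := hcirc z h1
      have h4 := hz.2
      nlinarith
    have hd : DifferentiableOn ℂ (fun z => k z * E2 c z) UD := by
      refine hk.mul ((E2_cont hc).mono ?_)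
      exact ball_subset_closedBall
    refine max_lim hd hKc hKs ?_ 0 (by simp [HY.UD])
    intro z hz hzK
    have h1 : z ∈ closedBall (0 : ℂ) 1 := ball_subset_closedBall hz
    have h2 : ‖E2 c z‖ < (1 + ε) * ‖deriv B z‖ := by
      by_contra h3
      push Not at h3
      exact hzK ⟨h1, h3⟩
    have h3 := hqk z hz
    have h4 := hq z hz
    rw [h3, norm_mul] at h4
    rw [norm_mul]
    calc ‖k z‖ * ‖E2 c z‖ ≤ ‖k z‖ * ((1 + ε) * ‖deriv B z‖) := mul_le_mul_of_nonneg_left h2.le (norm_nonneg _)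
      _ = (1 + ε) * (‖k z‖ * ‖deriv B z‖) := by ring
      _ ≤ (1 + ε) * 1 := mul_le_mul_of_nonneg_left h4 (by linarith)
      _ = 1 + ε := by ring
  have h1 : ‖k 0 * E2 c 0‖ ≤ 1 := le_of_forall_pos_le_add hlim
  have h2 : ‖E2 c 0‖ = 2 / (1 + ‖c‖ ^ 2) := by
    have h2 : (0 : ℝ) < 1 + ‖c‖ ^ 2 := by positivity
    have h3 : ‖(1 + (‖c‖ : ℂ) ^ 2)‖ = 1 + ‖c‖ ^ 2 := by
      have h4 : (1 + (‖c‖ : ℂ) ^ 2) = ((1 + ‖c‖ ^ 2 : ℝ) : ℂ) := by push_cast; ring
      rw [h4, Complex.norm_real, Real.norm_of_nonneg h2.le]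
    rw [E2]
    simp only [mul_zero, sub_zero, one_pow, mul_one]
    rw [norm_div, h3, Complex.norm_ofNat]
  rw [norm_mul, h2] at h1
  exact h1

/-- THE LOSS INEQUALITY: `‖B' 0‖ ≥ (2σ/(1+σ²))^m` with `σ = ‖q 0‖`, `q` divisible by `B'`, `‖q‖ ≤ 1`, `m + 1` the degree. -/
theorem LOS_main {s : Multiset ℂ} (hs : ∀ a ∈ s, a ∈ UD) {u : ℂ} (hu : ‖u‖ = 1) {q k : ℂ → ℂ} (hk : DifferentiableOn ℂ k UD)
    (hq : ∀ z ∈ UD, ‖q z‖ ≤ 1) (hqk : ∀ z ∈ UD, q z = k z * deriv (fun z => u * BP (0 ::ₘ s) z) z) :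
    (2 * ‖q 0‖ / (1 + ‖q 0‖ ^ 2)) ^ (Multiset.card s) ≤ ‖deriv (fun z => u * BP (0 ::ₘ s) z) 0‖ ∧
    ∀ a ∈ s, 2 * ‖q 0‖ / (1 + ‖q 0‖ ^ 2) ≤ ‖a‖ := by
  have h0U : (0 : ℂ) ∈ UD := by simp [HY.UD]
  have hder : deriv (fun z => u * BP (0 ::ₘ s) z) 0 = u * BP s 0 := (LOS_der0 hs u).deriv
  have hBP0 : ‖BP s 0‖ = (s.map (fun a => ‖a‖)).prod := by
    clear hqk hder hq
    induction s using Multiset.induction with
    | empty => simp [BP]
    | cons a s ih =>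
      rw [BP_cons, norm_mul, ih (fun b hb => hs b (Multiset.mem_cons_of_mem hb)), Multiset.map_cons, Multiset.prod_cons]
      congr 1
      simp [HY.T]
  have hq1 : ‖q 0‖ ≤ 1 := hq 0 h0U
  have hpt : ∀ a ∈ s, 2 * ‖q 0‖ / (1 + ‖q 0‖ ^ 2) ≤ ‖a‖ := by
    intro a ha
    obtain ⟨c, hc, hca⟩ := mid_exists (hs a ha)
    have h1 := LOS_pt hs hu hk hq hqk hc (by rw [hca]; exact ha)
    have h2 := hqk 0 h0U
    rw [hder] at h2
    have h3 : ‖q 0‖ = ‖k 0‖ * ‖BP s 0‖ := by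
      rw [h2, norm_mul, norm_mul, hu, one_mul]
    have h4 : ‖BP s 0‖ ≤ ‖a‖ := by
      obtain ⟨t, rfl⟩ := Multiset.exists_cons_of_mem ha
      rw [hBP0, Multiset.map_cons, Multiset.prod_cons]
      have h5 : (t.map (fun a => ‖a‖)).prod ≤ 1 := by
        have h6 : ∀ b ∈ t, ‖b‖ ≤ 1 := by
          intro b hb
          have h7 : ‖b‖ < 1 := by simpa [HY.UD] using hs b (Multiset.mem_cons_of_mem hb)
          exact h7.le
        clear hBP0 hqk hder h2 h1 ha hs h3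
        induction t using Multiset.induction with
        | empty => simp
        | cons b t ih =>
          rw [Multiset.map_cons, Multiset.prod_cons]
          have h8 := ih (fun b' hb' => h6 b' (Multiset.mem_cons_of_mem hb'))
          have h9 := h6 b (Multiset.mem_cons_self b t)
          have h10 : 0 ≤ (t.map (fun a => ‖a‖)).prod := by
            refine Multiset.prod_nonneg ?_
            intro y hy
            obtain ⟨z, _, rfl⟩ := Multiset.mem_map.1 hy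
            exact norm_nonneg _
          nlinarith [norm_nonneg b]
      have := mul_le_mul_of_nonneg_left h5 (norm_nonneg a)
      linarith
    have hc1 : ‖c‖ < 1 := by simpa [HY.UD] using hc
    have h5 : ‖a‖ = 2 * ‖c‖ / (1 + ‖c‖ ^ 2) := by
      have h2 : (0 : ℝ) < 1 + ‖c‖ ^ 2 := by positivity
      have h3 : ‖(1 + (‖c‖ : ℂ) ^ 2)‖ = 1 + ‖c‖ ^ 2 := by
        have h4 : (1 + (‖c‖ : ℂ) ^ 2) = ((1 + ‖c‖ ^ 2 : ℝ) : ℂ) := by push_cast; ring
        rw [h4, Complex.norm_real, Real.norm_of_nonneg h2.le]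
      rw [← hca, norm_div, h3, norm_mul, Complex.norm_ofNat]
    have h6 : ‖q 0‖ ≤ ‖c‖ := by
      have hp : (0 : ℝ) < 1 + ‖c‖ ^ 2 := by positivity
      have h7 : ‖k 0‖ ≤ (1 + ‖c‖ ^ 2) / 2 := by
        rw [mul_div_assoc', div_le_one hp] at h1
        linarith
      calc ‖q 0‖ = ‖k 0‖ * ‖BP s 0‖ := h3
        _ ≤ (1 + ‖c‖ ^ 2) / 2 * ‖a‖ := mul_le_mul h7 h4 (norm_nonneg _) (by positivity)
        _ = ‖c‖ := by
          rw [h5]
          field_simp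
    rw [h5]
    rw [div_le_div_iff₀ (by positivity) (by positivity)]
    have hqn := norm_nonneg (q 0)
    have h8 : ‖q 0‖ * ‖c‖ ≤ 1 := by nlinarith
    nlinarith [mul_nonneg (sub_nonneg.2 h6) (sub_nonneg.2 h8)]
  refine ⟨?_, hpt⟩
  rw [hder, norm_mul, hu, one_mul, hBP0]
  set σ := 2 * ‖q 0‖ / (1 + ‖q 0‖ ^ 2)
  have hσ : 0 ≤ σ := by positivity
  have h9 : (s.map (fun _ => σ)).prod ≤ (s.map (fun a => ‖a‖)).prod := by
    clear hBP0 hder hqk hs
    induction s using Multiset.induction with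
    | empty => simp
    | cons a s ih =>
      rw [Multiset.map_cons, Multiset.prod_cons, Multiset.map_cons, Multiset.prod_cons]
      have h10 := ih (fun b hb => hpt b (Multiset.mem_cons_of_mem hb))
      refine mul_le_mul (hpt a (Multiset.mem_cons_self a s)) h10 ?_ (norm_nonneg _)
      refine Multiset.prod_nonneg ?_
      intro y hy
      obtain ⟨z, _, rfl⟩ := Multiset.mem_map.1 hy
      exact hσ
  rw [Multiset.map_const', Multiset.prod_replicate] at h9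
  exact h9

end PO
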