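import Pool.Agent.helper58.PO.BLA

/-!
# Project po: the LOSS inequality for polynomials
-/

set_option autoImplicit false

open Complex Metric Set Filter Topology

noncomputable section

namespace PO

open HY (UD T S RM)

/-- the product of the pseudo-hyperbolic distances of `x` to the critical points of `f` in `W` (with multiplicities). -/
def SG (f : Polynomial ℂ) (W : Set ℂ) (φ : ℂ → ℂ) : ℝ := ((RW f.derivative.roots W φ).map (fun c => ‖c‖)).prod

theorem BP_at_zero (s : Multiset ℂ) : ‖BP s 0‖ = (s.map (fun a => ‖a‖)).prod := by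
  induction s using Multiset.induction with
  | empty => simp [BP]
  | cons a s ih =>
    rw [BP_cons, norm_mul, ih, Multiset.map_cons, Multiset.prod_cons]
    congr 1
    simp [HY.T]

/-- LOSS: `f : (W, x) → (W', f x)` proper, `σ` = product of the distances to the critical points, degree of `f` equal to `d`:
`|f' x| conf(W,x)/conf(W', f x) ≥ (2σ/(1+σ²))^(d-1)`, and every other preimage of `f x` in `W` has distance at least `2σ/(1+σ²)`. -/
theorem LSP {f : Polynomial ℂ} {W W' : Set ℂ} {x : ℂ} {φ φ' : ℂ → ℂ} (h : PX f W W' x φ φ') (hd : 1 ≤ f.natDegree) :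
    (2 * SG f W φ / (1 + SG f W φ ^ 2)) ^ (f.natDegree - 1) ≤ ‖f.derivative.eval x‖ * ‖deriv φ 0‖ / ‖deriv φ' 0‖ ∧
    ‖f.derivative.eval x‖ * ‖deriv φ 0‖ / ‖deriv φ' 0‖ ≤ 1 ∧
    (∀ z ∈ W, z ≠ x → f.eval z = f.eval x → 2 * SG f W φ / (1 + SG f W φ ^ 2) ≤ ‖co φ z‖) ∧
    0 ≤ SG f W φ ∧ SG f W φ ≤ 1 := by
  classical
  obtain ⟨u, hu, hB⟩ := BLA h hd
  set p := f - Polynomial.C (f.eval x) with hp
  have hpd : p.natDegree = f.natDegree := by
    rw [hp]
    exact Polynomial.natDegree_sub_C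
  have hp0 : p ≠ 0 := by
    intro h0
    rw [h0, Polynomial.natDegree_zero] at hpd
    omega
  have hxW : x ∈ W := by
    rw [← h.rm.val]
    exact RM_mem h.rm zero_UD
  have hcox : co φ x = 0 := by
    rw [← h.rm.val]
    exact co_phi h.rm zero_UD
  have hroot : ∀ z ∈ W, f.eval z = f.eval x → co φ z ∈ RW p.roots W φ := by
    intro z hz hfz
    refine Multiset.mem_map_of_mem _ (Multiset.mem_filter.2 ⟨?_, hz⟩)
    rw [Polynomial.mem_roots hp0, Polynomial.IsRoot.def, hp]
    simp [hfz]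
  have h0R : (0 : ℂ) ∈ RW p.roots W φ := by
    rw [← hcox]
    exact hroot x hxW rfl
  obtain ⟨s, hs⟩ := Multiset.exists_cons_of_mem h0R
  have hcard : Multiset.card s ≤ f.natDegree - 1 := by
    have h1 := RW_card p.roots W φ
    have h2 := p.card_roots'
    rw [hs, Multiset.card_cons] at h1
    omega
  have hsU : ∀ a ∈ s, a ∈ UD := by
    intro a ha
    refine RW_mem h.rm p.roots a ?_
    rw [hs]
    exact Multiset.mem_cons_of_mem ha
  rw [hs] at hB
  have hf' : f.derivative ≠ 0 := by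
    intro h0
    have h9 := Polynomial.derivative_eq_zero.1 h0
    omega
  have hlc : f.derivative.leadingCoeff ≠ 0 := Polynomial.leadingCoeff_ne_zero.2 hf'
  obtain ⟨g, hg, hg0, hgp⟩ := ZF h.rm f.derivative.roots
  have hCU := RW_mem h.rm f.derivative.roots
  have hBd := BB_dif h
  have hBm : MapsTo (BB f φ φ') UD UD := fun y hy => (BB_spec h hy).1
  have hd1 : ∀ y ∈ UD, deriv (fun z => u * BP (0 ::ₘ s) z) y =
      (deriv φ' (BB f φ φ' y))⁻¹ * (f.derivative.eval (φ y) * deriv φ y) := by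
    intro y hy
    have h1 : (fun z => u * BP (0 ::ₘ s) z) =ᶠ[𝓝 y] BB f φ φ' := by
      filter_upwards [UD_open.mem_nhds hy] with z hz
      exact (hB z hz).symm
    rw [h1.deriv_eq]
    exact (BB_der h hy).deriv
  set q : ℂ → ℂ := BP (RW f.derivative.roots W φ) with hq
  set k : ℂ → ℂ := fun y => deriv φ' (BB f φ φ' y) / (f.derivative.leadingCoeff * g y * deriv φ y) with hk
  have hkd : DifferentiableOn ℂ k UD := by
    refine DifferentiableOn.div ?_ ?_ ?_
    · exact (h.rm'.dif.deriv UD_open).comp hBd hBm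
    · exact (hg.const_mul _).mul (h.rm.dif.deriv UD_open)
    · intro y hy
      exact mul_ne_zero (mul_ne_zero hlc (hg0 y hy)) (RM_der h.rm hy)
  have hqk : ∀ y ∈ UD, q y = k y * deriv (fun z => u * BP (0 ::ₘ s) z) y := by
    intro y hy
    rw [hd1 y hy, poly_roots f.derivative, hgp y hy, hk]
    have h1 := RM_der h.rm hy
    have h2 := RM_der h.rm' (hBm hy)
    have h3 := hg0 y hy
    simp only
    field_simp
  have hq1 : ∀ y ∈ UD, ‖q y‖ ≤ 1 := fun y hy => BP_le hCU hy
  obtain ⟨h1, h2⟩ := LOS_main hsU hu hkd hq1 hqk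
  have hq0 : ‖q 0‖ = SG f W φ := by
    rw [hq, SG]
    exact BP_at_zero _
  have hder : ‖deriv (fun z => u * BP (0 ::ₘ s) z) 0‖ = ‖f.derivative.eval x‖ * ‖deriv φ 0‖ / ‖deriv φ' 0‖ := by
    rw [hd1 0 zero_UD, BB_zero h, h.rm.val, norm_mul, norm_mul, norm_inv]
    ring
  rw [hq0, hder] at h1
  rw [hq0] at h2
  have hSG0 : 0 ≤ SG f W φ := by
    rw [← hq0]
    exact norm_nonneg _
  have hSG1 : SG f W φ ≤ 1 := by
    rw [← hq0]
    exact hq1 0 zero_UD
  have hσ1 : 2 * SG f W φ / (1 + SG f W φ ^ 2) ≤ 1 := by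
    rw [div_le_one (by positivity)]
    nlinarith [sq_nonneg (1 - SG f W φ)]
  have hσ0 : 0 ≤ 2 * SG f W φ / (1 + SG f W φ ^ 2) := by positivity
  refine ⟨?_, ?_, ?_, hSG0, hSG1⟩
  · exact (pow_le_pow_of_le_one hσ0 hσ1 hcard).trans h1
  · rw [← hder]
    rw [(LOS_der0 hsU u).deriv, norm_mul, hu, one_mul]
    exact BP_le hsU zero_UD
  · intro z hz hzx hfz
    refine h2 _ ?_
    have h3 := hroot z hz hfz
    rw [hs] at h3
    rcases Multiset.mem_cons.1 h3 with h4 | h4
    · exfalso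
      apply hzx
      rw [← (co_spec h.rm hz).2, h4, h.rm.val]
    · exact h4

end PO
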