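import Pool.Agent.helper58.PO.RMT
import Pool.Agent.helper49.BR.PRM
import Pool.Agent.helper65.BR.POL
import Pool.Agent.helper91.BR.WND
import Pool.Agent.helper84.BR.CPF
import Pool.Agent.helper92.MP.MI
import Pool.Agent.helper53.BR.HUL

/-!
# Project po: Riemann maps of the components of the sublevel sets of entire functions
-/

set_option autoImplicit false

open Complex Metric Set Filter Topology

noncomputable section

namespace PO

theorem RMC_prm : BR.PRM_stmt := BR.PRM (BR.POL BR.WND BR.CPF)

/-- components of sublevel sets have no holes. -/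
theorem RMC_nh {P : ℂ → ℂ} (hP : Differentiable ℂ P) (R : ℝ) (p : ℂ) :
    BR.NoHole (connectedComponentIn {z | ‖P z‖ < R} p) := by
  intro Γ hΓU hΓ q hq hb
  have hOo : IsOpen {z | ‖P z‖ < R} := isOpen_lt hP.continuous.norm continuous_const
  have hUo : IsOpen (connectedComponentIn {z | ‖P z‖ < R} p) := hOo.connectedComponentIn
  have ho : IsOpen Γᶜ := hΓ.isClosed.isOpen_compl
  have hN : IsOpen (connectedComponentIn Γᶜ q) := ho.connectedComponentIn
  have hpN : q ∈ connectedComponentIn Γᶜ q := mem_connectedComponentIn hq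
  have hfr := BR.HUL_frontier Γ hΓ q
  have hne : (frontier (connectedComponentIn Γᶜ q)).Nonempty := by
    rw [nonempty_iff_ne_empty]
    intro h0
    have hcl : IsClopen (connectedComponentIn Γᶜ q) := isClopen_iff_frontier_eq_empty.2 h0
    rcases isClopen_iff.1 hcl with h | h
    · rw [h] at hpN; exact hpN
    · rw [h] at hb
      exact NormedSpace.unbounded_univ ℝ ℂ hb
  obtain ⟨x, hx⟩ := hne
  have hΓne : Γ.Nonempty := ⟨x, hfr hx⟩
  obtain ⟨y, hy, hymax⟩ := hΓ.exists_isMaxOn hΓne hP.continuous.norm.continuousOn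
  have hyR : ‖P y‖ < R := by
    have h1 : y ∈ {z | ‖P z‖ < R} := connectedComponentIn_subset _ _ (hΓU hy)
    exact h1
  have hNO : connectedComponentIn Γᶜ q ⊆ {z | ‖P z‖ < R} := by
    intro z hz
    have h1 := Complex.norm_le_of_forall_mem_frontier_norm_le hb hP.diffContOnCl
      (C := ‖P y‖) (fun w hw => hymax (hfr hw)) (subset_closure hz)
    exact lt_of_le_of_lt h1 hyR
  obtain ⟨z, hz1, hz2⟩ := mem_closure_iff.1 hx.1 _ hUo (hΓU (hfr hx))
  have h3 := connectedComponentIn_eq hz1
  rw [h3]
  exact isPreconnected_connectedComponentIn.subset_connectedComponentIn hz2 hNO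

theorem RMC {P : ℂ → ℂ} (hP : Differentiable ℂ P) {R : ℝ} (hb : Bornology.IsBounded {z | ‖P z‖ < R}) {p : ℂ} (hp : ‖P p‖ < R) :
    ∃ φ : ℂ → ℂ, HY.RM (connectedComponentIn {z | ‖P z‖ < R} p) p φ := by
  have hOo : IsOpen {z | ‖P z‖ < R} := isOpen_lt hP.continuous.norm continuous_const
  have hUo : IsOpen (connectedComponentIn {z | ‖P z‖ < R} p) := hOo.connectedComponentIn
  have hpU : p ∈ connectedComponentIn {z | ‖P z‖ < R} p := mem_connectedComponentIn hp
  obtain ⟨M, hM⟩ := (Metric.isBounded_iff_subset_ball p).1 hb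
  refine RMTB hUo isPreconnected_connectedComponentIn hpU ((connectedComponentIn_subset _ _).trans hM) ?_
  intro h hd
  exact RMC_prm _ h hUo ⟨⟨p, hpU⟩, isPreconnected_connectedComponentIn⟩ (RMC_nh hP R p) hd

end PO
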