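import Pool.Agent.helper57.V3.TMO
import Pool.Agent.helper13.V3.TDE
import Pool.Agent.helper91.V3.THU
import Pool.Agent.helper38.V3.KO0
import Pool.Agent.helper25.HY.MOB

/-!
# Project po: Riemann mapping theorem for bounded domains with primitives
-/

set_option autoImplicit false

open Complex Metric Set Filter Topology

noncomputable section

namespace PO

/-- every holomorphic function on `U` has a primitive. -/
def PR (U : Set ℂ) : Prop := ∀ h : ℂ → ℂ, DifferentiableOn ℂ h U → ∃ H : ℂ → ℂ, ∀ z ∈ U, HasDerivAt H (h z) z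

theorem RMT_sqrt {U : Set ℂ} (hU : IsOpen U) (hc : IsPreconnected U) (hne : U.Nonempty) (hP : PR U)
    {g : ℂ → ℂ} (hg : DifferentiableOn ℂ g U) (h0 : ∀ z ∈ U, g z ≠ 0) :
    ∃ h : ℂ → ℂ, DifferentiableOn ℂ h U ∧ ∀ z ∈ U, h z ^ 2 = g z := by
  have hdg : DifferentiableOn ℂ (deriv g) U := hg.deriv hU
  obtain ⟨H, hH⟩ := hP (fun z => deriv g z / g z) (hdg.div hg h0)
  obtain ⟨p, hp⟩ := hne
  set k : ℂ → ℂ := fun z => g z * Complex.exp (-(H z)) with hk
  have hkd : ∀ z ∈ U, HasDerivAt k 0 z := by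
    intro z hz
    have h1 : HasDerivAt g (deriv g z) z := (hg.differentiableAt (hU.mem_nhds hz)).hasDerivAt
    have h2 : HasDerivAt (fun z => Complex.exp (-(H z))) (Complex.exp (-(H z)) * (-(deriv g z / g z))) z :=
      (hH z hz).neg.cexp
    have h3 := h1.mul h2
    have h4 : g z * (deriv g z / g z) = deriv g z := by rw [mul_comm]; exact div_mul_cancel₀ _ (h0 z hz)
    have h5 : deriv g z * Complex.exp (-(H z)) + g z * (Complex.exp (-(H z)) * (-(deriv g z / g z))) = 0 := by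
      linear_combination (-Complex.exp (-(H z))) * h4
    rw [h5] at h3
    exact h3
  have hkc : ∀ z ∈ U, k z = k p := by
    intro z hz
    refine hU.is_const_of_deriv_eq_zero hc (fun w hw => (hkd w hw).differentiableAt.differentiableWithinAt) ?_ hz hp
    intro w hw
    exact (hkd w hw).deriv
  have hkp : k p ≠ 0 := mul_ne_zero (h0 p hp) (Complex.exp_ne_zero _)
  refine ⟨fun z => Complex.exp ((H z + Complex.log (k p)) / 2), ?_, ?_⟩
  · intro z hz
    exact (((hH z hz).differentiableAt.add_const _).div_const 2).cexp.differentiableWithinAt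
  · intro z hz
    rw [← Complex.exp_nat_mul]
    have : ((2 : ℕ) : ℂ) * ((H z + Complex.log (k p)) / 2) = H z + Complex.log (k p) := by push_cast; ring
    rw [this, Complex.exp_add, Complex.exp_log hkp, ← hkc z hz, hk]
    simp only
    rw [mul_comm, mul_assoc, ← Complex.exp_add]
    simp

/-- the family of the Riemann mapping theorem. -/
structure FM (U : Set ℂ) (p : ℂ) (h : ℂ → ℂ) : Prop where
  dif : DifferentiableOn ℂ h U
  inj : InjOn h U
  map : MapsTo h U (ball 0 1)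
  val : h p = 0

theorem RMT_ext {U : Set ℂ} (hU : IsOpen U) (hc : IsPreconnected U) {p : ℂ} (hp : p ∈ U) {M : ℝ} (hM : U ⊆ ball p M) :
    ∃ h : ℂ → ℂ, FM U p h ∧ (∀ k, FM U p k → ‖deriv k p‖ ≤ ‖deriv h p‖) ∧ 0 < ‖deriv h p‖ := by
  have hM0 : 0 < M := by
    have := hM hp
    rwa [mem_ball, dist_self] at this
  obtain ⟨r, hr, hrU⟩ := Metric.isOpen_iff.1 hU p hp
  have hbd : ∀ k, FM U p k → ‖deriv k p‖ ≤ 1 / r := by
    intro k hk
    refine Complex.norm_deriv_le_div_of_mapsTo_ball (hk.dif.mono hrU) ?_ hr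
    intro z hz
    rw [hk.val]
    exact ball_subset_closedBall (hk.map (hrU hz))
  have hbase : FM U p (fun z => (z - p) / M) := by
    refine ⟨?_, ?_, ?_, ?_⟩
    · exact ((differentiable_id.sub_const p).div_const _).differentiableOn
    · intro a _ b _ hab
      have hMc : (M : ℂ) ≠ 0 := by exact_mod_cast hM0.ne'
      simp only at hab
      field_simp at hab
      linear_combination hab
    · intro z hz
      have h1 := hM hz
      rw [mem_ball, dist_eq_norm] at h1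
      rw [mem_ball_zero_iff, norm_div, Complex.norm_real, Real.norm_of_nonneg hM0.le, div_lt_one hM0]
      exact h1
    · simp
  have hbased : ‖deriv (fun z => (z - p) / (M : ℂ)) p‖ = 1 / M := by
    have h1 : HasDerivAt (fun z => (z - p) / (M : ℂ)) (1 / (M : ℂ)) p := ((hasDerivAt_id p).sub_const p).div_const _
    rw [h1.deriv, norm_div, Complex.norm_real, Real.norm_of_nonneg hM0.le, norm_one]
  set S : Set ℝ := {x | ∃ k, FM U p k ∧ ‖deriv k p‖ = x} with hS
  have hSne : S.Nonempty := ⟨_, _, hbase, rfl⟩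
  have hSb : BddAbove S := ⟨1 / r, by rintro x ⟨k, hk, rfl⟩; exact hbd k hk⟩
  set s := sSup S with hs
  have hle : ∀ k, FM U p k → ‖deriv k p‖ ≤ s := fun k hk => le_csSup hSb ⟨k, hk, rfl⟩
  have hs0 : 0 < s := lt_of_lt_of_le (by positivity : 0 < 1 / M) (hbased ▸ hle _ hbase)
  have hex : ∀ n : ℕ, ∃ k, FM U p k ∧ s - 1 / ((n : ℝ) + 1) < ‖deriv k p‖ := by
    intro n
    obtain ⟨x, ⟨k, hk, rfl⟩, hx⟩ := exists_lt_of_lt_csSup hSne (show s - 1 / ((n : ℝ) + 1) < s by
      have : 0 < 1 / ((n : ℝ) + 1) := by positivity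
      linarith)
    exact ⟨k, hk, hx⟩
  choose f hf hfs using hex
  obtain ⟨F, hFd, hFt⟩ := V3.TMO (Filter.hyperfilter ℕ) f U hU (by
    intro x hx
    obtain ⟨ρ, hρ, hρU⟩ := Metric.isOpen_iff.1 hU x hx
    refine ⟨ρ, hρ, 1, Filter.Eventually.of_forall fun m => ⟨(hf m).dif.mono hρU, fun y hy => ?_⟩⟩
    have := (hf m).map (hρU hy)
    rw [mem_ball_zero_iff] at this
    exact this.le)
  obtain ⟨_, hFt', _⟩ := V3.TDE (Filter.hyperfilter ℕ) f F U hU (by
    intro x hx
    obtain ⟨ρ, hρ, hρU⟩ := Metric.isOpen_iff.1 hU x hx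
    exact ⟨ρ, hρ, Filter.Eventually.of_forall fun m => (hf m).dif.mono hρU⟩) hFt
  have hpt : ∀ x ∈ U, Tendsto (fun m => f m x) (Filter.hyperfilter ℕ) (𝓝 (F x)) := fun x hx => hFt.tendsto_at hx
  have hdt : Tendsto (fun m => ‖deriv (f m) p‖) (Filter.hyperfilter ℕ) (𝓝 ‖deriv F p‖) := (hFt'.tendsto_at hp).norm
  have hinf : Tendsto (fun n : ℕ => s - 1 / ((n : ℝ) + 1)) (Filter.hyperfilter ℕ) (𝓝 s) := by
    have h1 : Tendsto (fun n : ℕ => s - 1 / ((n : ℝ) + 1)) atTop (𝓝 (s - 0)) :=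
      tendsto_const_nhds.sub tendsto_one_div_add_atTop_nhds_zero_nat
    rw [sub_zero] at h1
    exact h1.mono_left Nat.hyperfilter_le_atTop
  have hsF : s ≤ ‖deriv F p‖ := le_of_tendsto_of_tendsto hinf hdt (Filter.Eventually.of_forall fun n => (hfs n).le)
  have hFp0 : 0 < ‖deriv F p‖ := lt_of_lt_of_le hs0 hsF
  have hFval : F p = 0 := by
    have h1 := hpt p hp
    have h2 : (fun m => f m p) = fun _ => (0 : ℂ) := funext fun m => (hf m).val
    rw [h2] at h1
    exact (tendsto_nhds_unique h1 tendsto_const_nhds)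
  have hFle : ∀ x ∈ U, ‖F x‖ ≤ 1 := by
    intro x hx
    refine le_of_tendsto (hpt x hx).norm (Filter.Eventually.of_forall fun m => ?_)
    have := (hf m).map hx
    rw [mem_ball_zero_iff] at this
    exact this.le
  have hnc : ∀ c : ℂ, ¬ EqOn F (fun _ => c) U := by
    intro c hcc
    have h1 : deriv F p = 0 := by
      have h2 : F =ᶠ[𝓝 p] fun _ => c := Filter.eventuallyEq_of_mem (hU.mem_nhds hp) hcc
      rw [h2.deriv_eq]
      simp
    rw [h1, norm_zero] at hFp0
    exact lt_irrefl _ hFp0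
  have hFmap : MapsTo F U (ball 0 1) := by
    intro x hx
    rw [mem_ball_zero_iff]
    by_contra hcon
    push Not at hcon
    refine hnc (F x) ?_
    refine Complex.eqOn_of_isPreconnected_of_isMaxOn_norm hc hU hFd hx ?_
    intro y hy
    exact (hFle y hy).trans hcon
  have hFinj : InjOn F U := by
    intro a ha b hb hab
    by_contra hne
    obtain ⟨ρ, hρ, hρU⟩ := Metric.isOpen_iff.1 hU b hb
    set ε := min ρ (dist a b) with hε
    have hε0 : 0 < ε := lt_min hρ (dist_pos.2 hne)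
    have hballU : ball b ε ⊆ U := (ball_subset_ball (min_le_left _ _)).trans hρU
    have hT : TendstoLocallyUniformlyOn (fun m z => f m z - f m a) (fun z => F z - F a) (Filter.hyperfilter ℕ) (ball b ε) := by
      have h1 : TendstoLocallyUniformlyOn f F (Filter.hyperfilter ℕ) (ball b ε) := hFt.mono hballU
      have h2 : TendstoLocallyUniformlyOn (fun m (_ : ℂ) => f m a) (fun _ => F a) (Filter.hyperfilter ℕ) (ball b ε) := by
        rw [Metric.tendstoLocallyUniformlyOn_iff]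
        intro e he x _
        refine ⟨univ, Filter.univ_mem, ?_⟩
        have h3 := (Metric.tendsto_nhds.1 (hpt a ha)) e he
        filter_upwards [h3] with m hm y _
        rw [dist_comm]
        exact hm
      exact h1.sub h2
    have hnz : ∃ x ∈ ball b ε, F x - F a ≠ 0 := by
      by_contra hcon
      push Not at hcon
      refine hnc (F a) ?_
      have hFan : AnalyticOnNhd ℂ F U := hFd.analyticOnNhd hU
      refine hFan.eqOn_of_preconnected_of_eventuallyEq analyticOnNhd_const hc hb ?_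
      refine Filter.eventuallyEq_of_mem (ball_mem_nhds b hε0) ?_
      intro x hx
      exact sub_eq_zero.1 (hcon x hx)
    have hz := V3.THU (Filter.hyperfilter ℕ) (fun m z => f m z - f m a) (fun z => F z - F a) b ε hε0
      (Filter.Eventually.of_forall fun m => ((hf m).dif.mono hballU).sub_const _) hT (by rw [hab, sub_self]) hnz ε hε0
    obtain ⟨m, z, hz, hz0⟩ := hz.exists
    have h5 : z = a := (hf m).inj (hballU hz) ha (sub_eq_zero.1 hz0)
    rw [h5, mem_ball] at hz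
    exact absurd hz (not_lt.2 (min_le_right _ _))
  exact ⟨F, ⟨hFd, hFinj, hFmap, hFval⟩, fun k hk => (hle k hk).trans hsF, hFp0⟩

open HY (UD T S RM)

theorem RMT_koebe {U : Set ℂ} (hU : IsOpen U) (hc : IsPreconnected U) {p : ℂ} (hp : p ∈ U) (hP : PR U) {h : ℂ → ℂ}
    (hF : FM U p h) (hmax : ∀ k, FM U p k → ‖deriv k p‖ ≤ ‖deriv h p‖) (hpos : 0 < ‖deriv h p‖) :
    ∀ w ∈ UD, w ∈ h '' U := by
  intro w hw
  by_contra hcon
  have hw0 : w ≠ 0 := by
    rintro rfl
    exact hcon ⟨p, hp, hF.val⟩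
  obtain ⟨hTU, hTaa, _, hTd, _, hTi, _, hTn, _, hTdv, _, _⟩ := HY.MOB w hw
  have hmapU : ∀ z ∈ U, h z ∈ UD := fun z hz => hF.map hz
  have hg0 : ∀ z ∈ U, T w (h z) ≠ 0 := by
    intro z hz h0
    have h1 : h z = w := hTi (hmapU z hz) hw (by rw [h0, hTaa])
    exact hcon ⟨z, hz, h1⟩
  have hgd : DifferentiableOn ℂ (fun z => T w (h z)) U := hTd.comp hF.dif hmapU
  obtain ⟨q, hqd, hq2⟩ := RMT_sqrt hU hc ⟨p, hp⟩ hP hgd hg0
  have hqU : ∀ z ∈ U, q z ∈ UD := by
    intro z hz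
    have h1 : T w (h z) ∈ UD := (hTU _ (hmapU z hz)).1
    have h2 := hq2 z hz
    rw [HY.UD, mem_ball_zero_iff] at h1 ⊢
    rw [← h2, norm_pow] at h1
    by_contra h3
    push Not at h3
    nlinarith [sq_nonneg (‖q z‖ - 1)]
  have hqp : q p ∈ UD := hqU p hp
  obtain ⟨hTU', hTaa', _, hTd', _, hTi', _, hTn', _, hTdv', _, _⟩ := HY.MOB (q p) hqp
  have hk : FM U p (fun z => T (q p) (q z)) := by
    refine ⟨hTd'.comp hqd hqU, ?_, ?_, hTaa'⟩
    · intro a ha b hb hab
      have h1 : q a = q b := hTi' (hqU a ha) (hqU b hb) hab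
      have h2 : T w (h a) = T w (h b) := by rw [← hq2 a ha, ← hq2 b hb, h1]
      exact hF.inj ha hb (hTi (hmapU a ha) (hmapU b hb) h2)
    · intro z hz
      exact (hTU' _ (hqU z hz)).1
  have hk' := hmax _ hk
  have hhp : HasDerivAt h (deriv h p) p := (hF.dif.differentiableAt (hU.mem_nhds hp)).hasDerivAt
  have hqpd : HasDerivAt q (deriv q p) p := (hqd.differentiableAt (hU.mem_nhds hp)).hasDerivAt
  have hUDo : IsOpen UD := isOpen_ball
  have h0U : (0 : ℂ) ∈ UD := by simp [HY.UD]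
  have hTw0 : HasDerivAt (T w) (1 - (‖w‖ : ℂ) ^ 2) (h p) := by
    have h1 : HasDerivAt (T w) (deriv (T w) (h p)) (h p) := (hTd.differentiableAt (hUDo.mem_nhds (hmapU p hp))).hasDerivAt
    rw [hTdv _ (hmapU p hp), hF.val] at h1
    simpa [hF.val] using h1
  have hgp : HasDerivAt (fun z => T w (h z)) ((1 - (‖w‖ : ℂ) ^ 2) * deriv h p) p := hTw0.comp p hhp
  have hgp2 : HasDerivAt (fun z => T w (h z)) (2 * q p * deriv q p) p := by
    have h1 : HasDerivAt (fun z => q z ^ 2) (2 * q p * deriv q p) p := by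
      have h9 := hqpd.fun_pow 2
      simpa using h9
    refine h1.congr_of_eventuallyEq ?_
    filter_upwards [hU.mem_nhds hp] with z hz
    exact (hq2 z hz).symm
  have heq : 2 * q p * deriv q p = (1 - (‖w‖ : ℂ) ^ 2) * deriv h p := hgp2.unique hgp
  have hqn : ‖q p‖ ^ 2 = ‖w‖ := by
    have h1 := hq2 p hp
    rw [hF.val] at h1
    have h2 : T w 0 = -w := by simp [HY.T]
    rw [h2] at h1
    rw [← norm_pow, h1, norm_neg]
  have hTq : HasDerivAt (T (q p)) (1 / (1 - (‖q p‖ : ℂ) ^ 2)) (q p) := by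
    have h1 : HasDerivAt (T (q p)) (deriv (T (q p)) (q p)) (q p) := (hTd'.differentiableAt (hUDo.mem_nhds hqp)).hasDerivAt
    rw [hTdv' _ hqp] at h1
    have h2 : (1 - (‖q p‖ : ℂ) ^ 2) / (1 - (starRingEnd ℂ) (q p) * q p) ^ 2 = 1 / (1 - (‖q p‖ : ℂ) ^ 2) := by
      have h3 : (starRingEnd ℂ) (q p) * q p = (‖q p‖ : ℂ) ^ 2 := by
        rw [mul_comm, Complex.mul_conj, Complex.normSq_eq_norm_sq]
        push_cast
        rfl
      rw [h3]
      have h4 : (1 - (‖q p‖ : ℂ) ^ 2) ≠ 0 := by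
        have h5 : ‖q p‖ < 1 := by simpa [HY.UD] using hqp
        have h6 : (0 : ℝ) < 1 - ‖q p‖ ^ 2 := by nlinarith [norm_nonneg (q p)]
        exact_mod_cast h6.ne'
      field_simp
    rw [h2] at h1
    exact h1
  have hkd : deriv (fun z => T (q p) (q z)) p = 1 / (1 - (‖q p‖ : ℂ) ^ 2) * deriv q p := (hTq.comp p hqpd).deriv
  rw [hkd] at hk'
  have hw1 : ‖w‖ < 1 := by simpa [HY.UD] using hw
  have hwp : 0 < ‖w‖ := norm_pos_iff.2 hw0
  have hx0 : 0 < ‖q p‖ := by
    rcases (norm_nonneg (q p)).lt_or_eq with h1 | h1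
    · exact h1
    · rw [← h1] at hqn
      simp at hqn
      exact absurd hqn.symm hwp.ne'
  have hnorm : 2 * ‖q p‖ * ‖deriv q p‖ = (1 - ‖w‖ ^ 2) * ‖deriv h p‖ := by
    have h1 := congrArg norm heq
    rw [norm_mul, norm_mul, norm_mul] at h1
    have h2 : ‖(1 - (‖w‖ : ℂ) ^ 2)‖ = 1 - ‖w‖ ^ 2 := by
      have h3 : (1 - (‖w‖ : ℂ) ^ 2) = ((1 - ‖w‖ ^ 2 : ℝ) : ℂ) := by push_cast; ring
      rw [h3, Complex.norm_real, Real.norm_of_nonneg]
      nlinarith
    rw [h2] at h1
    simpa using h1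
  have hkn : ‖deriv q p‖ ≤ (1 - ‖w‖) * ‖deriv h p‖ := by
    rw [norm_mul, norm_div, norm_one] at hk'
    have h2 : ‖(1 - (‖q p‖ : ℂ) ^ 2)‖ = 1 - ‖w‖ := by
      have h3 : (1 - (‖q p‖ : ℂ) ^ 2) = ((1 - ‖q p‖ ^ 2 : ℝ) : ℂ) := by push_cast; ring
      rw [h3, Complex.norm_real, hqn, Real.norm_of_nonneg]
      linarith
    rw [h2] at hk'
    have h4 : 0 < 1 - ‖w‖ := by linarith
    rw [one_div, inv_mul_le_iff₀ h4] at hk'
    exact hk'
  set x := ‖q p‖
  have hx1 : x < 1 := by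
    have := hqp
    simpa [HY.UD] using this
  rw [← hqn] at hnorm hkn
  have h7 : 2 * x * ‖deriv q p‖ ≤ 2 * x * ((1 - x ^ 2) * ‖deriv h p‖) := mul_le_mul_of_nonneg_left hkn (by positivity)
  rw [hnorm] at h7
  have h8 : 0 < (1 - x ^ 2) * ‖deriv h p‖ := mul_pos (by nlinarith) hpos
  have h9 : (1 - (x ^ 2) ^ 2) * ‖deriv h p‖ = (1 + x ^ 2) * ((1 - x ^ 2) * ‖deriv h p‖) := by ring
  rw [h9] at h7
  have h10 : (1 + x ^ 2) ≤ 2 * x := by
    by_contra h11
    push Not at h11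
    nlinarith
  nlinarith [sq_nonneg (1 - x)]

theorem RMTB {U : Set ℂ} (hU : IsOpen U) (hc : IsPreconnected U) {p : ℂ} (hp : p ∈ U) {M : ℝ} (hM : U ⊆ ball p M) (hP : PR U) :
    ∃ φ : ℂ → ℂ, RM U p φ := by
  obtain ⟨h, hF, hmax, hpos⟩ := RMT_ext hU hc hp hM
  have hsur := RMT_koebe hU hc hp hP hF hmax hpos
  set φ : ℂ → ℂ := Function.invFunOn h U with hφ
  have h1 : ∀ x ∈ UD, φ x ∈ U ∧ h (φ x) = x := by
    intro x hx
    exact ⟨Function.invFunOn_mem (hsur x hx), Function.invFunOn_eq (hsur x hx)⟩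
  have h2 : ∀ z ∈ U, φ (h z) = z := by
    intro z hz
    have h3 := h1 (h z) (hF.map hz)
    exact hF.inj h3.1 hz h3.2
  refine ⟨φ, ?_, ?_, ?_, ?_⟩
  · intro x hx
    have hUDo : IsOpen UD := isOpen_ball
    have hxU := (h1 x hx).1
    have hstrict : HasStrictDerivAt h (deriv h (φ x)) (φ x) :=
      ((hF.dif.analyticOnNhd hU) (φ x) hxU).hasStrictDerivAt
    have hne : deriv h (φ x) ≠ 0 := V3.KO0 h U hU hF.dif hF.inj (φ x) hxU
    have hcont : ContinuousAt φ x := by
      intro W hW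
      have h4 : W ∩ U ∈ 𝓝 (φ x) := Filter.inter_mem hW (hU.mem_nhds hxU)
      have h5 : h '' (W ∩ U) ∈ 𝓝 x := by
        have h6 := hstrict.map_nhds_eq hne
        rw [(h1 x hx).2] at h6
        rw [← h6]
        exact Filter.image_mem_map h4
      rw [Filter.mem_map]
      filter_upwards [h5] with y hy
      obtain ⟨z, ⟨hzW, hzU⟩, rfl⟩ := hy
      show φ (h z) ∈ W
      rw [h2 z hzU]
      exact hzW
    have h7 : HasDerivAt φ (deriv h (φ x))⁻¹ x := by
      refine HasDerivAt.of_local_left_inverse hcont hstrict.hasDerivAt hne ?_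
      filter_upwards [hUDo.mem_nhds hx] with y hy
      exact (h1 y hy).2
    exact h7.differentiableAt.differentiableWithinAt
  · intro x hx y hy hxy
    rw [← (h1 x hx).2, ← (h1 y hy).2, hxy]
  · ext z
    constructor
    · rintro ⟨x, hx, rfl⟩
      exact (h1 x hx).1
    · intro hz
      exact ⟨h z, hF.map hz, h2 z hz⟩
  · rw [← hF.val]
    exact h2 p hp

end PO
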